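import Mathlib

/-!
The power sum of exponent `k ≤ p - 3` is `p B_k` modulo `p ^ 2`.
-/

set_option autoImplicit false

namespace Pool.Agent.Lib.MP_887aa5_nt

open Finset

variable {p : ℕ} [Fact p.Prime]

theorem inv_mem {n : ℕ} (h0 : 0 < n) (hn : n < p) : ((n : ℚ_[p]))⁻¹ ∈ PadicInt.subring p := by
  have h : ‖(n : ℚ_[p])‖ = 1 := Padic.norm_natCast_eq_one_iff.2
    ((Nat.Prime.coprime_iff_not_dvd Fact.out).2 fun h => absurd (Nat.le_of_dvd h0 h) (by omega))
  rw [PadicInt.mem_subring_iff, norm_inv, h, inv_one]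

theorem ber_mem (i : ℕ) (hi : i + 1 < p) : ((bernoulli i : ℚ) : ℚ_[p]) ∈ PadicInt.subring p := by
  induction i using Nat.strong_induction_on with
  | _ i ih =>
    rcases Nat.eq_zero_or_pos i with rfl | h0
    · simp
    have h := sum_bernoulli (i + 1)
    rw [if_neg (by omega), sum_range_succ, Nat.choose_succ_self_right] at h
    have h1 : ((bernoulli i : ℚ) : ℚ_[p]) = -(((i + 1 : ℕ) : ℚ_[p]))⁻¹ *
        ∑ k ∈ range i, ((i + 1).choose k : ℚ_[p]) * ((bernoulli k : ℚ) : ℚ_[p]) := by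
      have h2 := congrArg (fun q : ℚ => (q : ℚ_[p])) h
      have h3 : ((i + 1 : ℕ) : ℚ_[p]) ≠ 0 := Nat.cast_ne_zero.2 (by omega)
      simp only [Rat.cast_add, Rat.cast_sum, Rat.cast_mul, Rat.cast_natCast, Rat.cast_zero] at h2
      field_simp
      linear_combination h2
    rw [h1]
    refine mul_mem (neg_mem (inv_mem (by omega) hi)) (sum_mem fun k hk => ?_)
    exact mul_mem (natCast_mem _ _) (ih k (mem_range.1 hk) (by have := mem_range.1 hk; omega))

theorem norm_rat_lt (q : ℚ) : ‖(q : ℚ_[p])‖ < 1 ↔ (p : ℤ) ∣ q.num := by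
  have hq : (q.num : ℚ_[p]) = (q : ℚ_[p]) * (q.den : ℚ_[p]) := by
    exact_mod_cast congrArg (fun t : ℚ => (t : ℚ_[p])) (Rat.mul_den_eq_num q).symm
  rw [← Padic.norm_intCast_lt_one_iff]
  constructor
  · intro h
    rw [hq, norm_mul]
    have h1 : ‖(q.den : ℚ_[p])‖ ≤ 1 := by exact_mod_cast Padic.norm_int_le_one (p := p) q.den
    nlinarith [norm_nonneg (q : ℚ_[p]), norm_nonneg (q.den : ℚ_[p])]
  · intro h
    have h1 : p ∣ q.num.natAbs := Int.natCast_dvd.1 (Padic.norm_intCast_lt_one_iff.1 h)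
    have h2 : ‖(q.den : ℚ_[p])‖ = 1 :=
      Padic.norm_natCast_eq_one_iff.2 (Nat.Coprime.coprime_dvd_left h1 q.reduced)
    rwa [hq, norm_mul, h2, mul_one] at h

theorem dvd_iff_ber {k : ℕ} (h0 : 0 < k) (hk : k + 1 < p) {s : ℤ}
    (hs : ∑ a ∈ Icc 1 (p - 1), (a : ℤ) ^ k = p * s) :
    (p : ℤ) ∣ s ↔ (p : ℤ) ∣ (bernoulli k).num := by
  have h1 : ∑ a ∈ range p, (a : ℤ) ^ k = p * s := by
    rw [← hs]
    refine (sum_subset (fun a ha => ?_) fun a ha hb => ?_).symm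
    · have := mem_Icc.1 ha
      exact mem_range.2 (by omega)
    · have h2 : a = 0 := by
        have := mem_range.1 ha
        rw [mem_Icc] at hb
        omega
      simp [h2, h0.ne']
  have h2 : ∑ a ∈ range p, (a : ℚ) ^ k = p * s := by exact_mod_cast h1
  rw [sum_range_pow, sum_range_succ, Nat.choose_succ_self_right] at h2
  have h3 := congrArg (fun q : ℚ => (q : ℚ_[p])) h2
  simp only [Rat.cast_add, Rat.cast_sum, Rat.cast_mul, Rat.cast_natCast, Rat.cast_div,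
    Rat.cast_pow, Rat.cast_one, Rat.cast_intCast, Nat.add_sub_cancel_left, pow_one] at h3
  obtain ⟨c, hc⟩ : ∃ c : ℚ_[p], c = ∑ i ∈ range k, ((bernoulli i : ℚ) : ℚ_[p]) *
    ((k + 1).choose i : ℚ_[p]) * (p : ℚ_[p]) ^ (k - 1 - i) * (((k + 1 : ℕ) : ℚ_[p]))⁻¹ := ⟨_, rfl⟩
  have hc1 : c ∈ PadicInt.subring p := by
    rw [hc]
    refine sum_mem fun i hi => ?_
    have := mem_range.1 hi
    exact mul_mem (mul_mem (mul_mem (ber_mem i (by omega)) (natCast_mem _ _))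
      (pow_mem (natCast_mem _ _) _)) (inv_mem (by omega) hk)
  have hp0 : (p : ℚ_[p]) ≠ 0 := Nat.cast_ne_zero.2 (by omega)
  have hk0 : (k : ℚ_[p]) + 1 ≠ 0 := by exact_mod_cast Nat.succ_ne_zero k
  have h4 : ∑ i ∈ range k, ((bernoulli i : ℚ) : ℚ_[p]) * ((k + 1).choose i : ℚ_[p]) *
      (p : ℚ_[p]) ^ (k + 1 - i) / ((k : ℚ_[p]) + 1) = p * (p * c) := by
    rw [hc, mul_sum, mul_sum]
    refine sum_congr rfl fun i hi => ?_
    have := mem_range.1 hi
    rw [show k + 1 - i = k - 1 - i + 2 by omega]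
    push_cast
    field_simp
    ring
  have h5 : (s : ℚ_[p]) = ((bernoulli k : ℚ) : ℚ_[p]) + p * c := by
    refine mul_left_cancel₀ hp0 ?_
    rw [← h3, h4]
    push_cast
    field_simp
    ring
  have h6 : ‖(p : ℚ_[p]) * c‖ < 1 := by
    rw [norm_mul]
    have h7 : ‖c‖ ≤ 1 := hc1
    nlinarith [Padic.norm_p_lt_one (p := p), norm_nonneg c, norm_nonneg (p : ℚ_[p])]
  rw [← norm_rat_lt, ← Padic.norm_intCast_lt_one_iff]
  constructor
  · intro h
    rw [show ((bernoulli k : ℚ) : ℚ_[p]) = s + -(p * c) by rw [h5]; ring]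
    exact (Padic.nonarchimedean _ _).trans_lt (max_lt h (by rwa [norm_neg]))
  · intro h
    rw [h5]
    exact (Padic.nonarchimedean _ _).trans_lt (max_lt h h6)

end Pool.Agent.Lib.MP_887aa5_nt
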