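import Pool.Agent.Lib.MP_887aa5_nt.Gau

/-!
The valuation of the Gaussian power sums at multiples of `p - 1`.
-/

set_option autoImplicit false

namespace Pool.Agent.Lib.MP_887aa5_nt

open Finset QuadraticAlgebra

variable {p : ℕ} [Fact p.Prime] [Fact (∀ r : ZMod p, r ^ 2 ≠ -1 + 0 * r)]

/-- Reduction modulo `p`. -/
noncomputable def red (p : ℕ) [Fact p.Prime] [Fact (∀ r : ZMod p, r ^ 2 ≠ -1 + 0 * r)] :
    GaussianInt →+* Fq p := Zsqrtd.lift ⟨omega, by rw [om_sq]; simp⟩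

/-- The prime field inside. -/
noncomputable abbrev emb (p : ℕ) [Fact p.Prime] [Fact (∀ r : ZMod p, r ^ 2 ≠ -1 + 0 * r)] :
    ZMod p →+* Fq p := algebraMap (ZMod p) (Fq p)

theorem red_mk (x y : ℤ) : red p ⟨x, y⟩ = (x : Fq p) + (y : Fq p) * omega := rfl

theorem red_eq_zero (z : GaussianInt) : red p z = 0 ↔ (p : GaussianInt) ∣ z := by
  rw [← Int.cast_natCast, Zsqrtd.intCast_dvd, ← ZMod.intCast_zmod_eq_zero_iff_dvd,
    ← ZMod.intCast_zmod_eq_zero_iff_dvd, red_mk, QuadraticAlgebra.ext_iff]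
  simp

omit [Fact (∀ r : ZMod p, r ^ 2 ≠ -1 + 0 * r)] in
theorem sum_sum (h : ZMod p → ZMod p → Fq p) :
    ∑ a ∈ Icc 1 (p - 1), ∑ b ∈ Icc 1 (p - 1), h (a : ZMod p) (b : ZMod p) =
      ∑ x : (ZMod p)ˣ, ∑ y : (ZMod p)ˣ, h x y := by
  rw [← sum_Icc_units fun x => ∑ y : (ZMod p)ˣ, h x y]
  exact sum_congr rfl fun a _ => sum_Icc_units _

theorem red_G (m : ℕ) : red p (G m p) = H (emb p) omega m := by
  rw [H, ← sum_sum fun x y => (emb p x + emb p y * omega) ^ m]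
  simp only [G, map_sum, map_pow, red_mk, map_natCast, Int.cast_natCast]

/-- The carry of the doubling map. -/
noncomputable def car (x : ZMod p) : Fq p := ((2 * x.val / p : ℕ) : Fq p)

theorem car_cast {a : ℕ} (ha : a ∈ Icc 1 (p - 1)) :
    car (a : ZMod p) = ((2 * a / p : ℕ) : Fq p) := by
  have := mem_Icc.1 ha
  rw [car, ZMod.val_cast_of_lt (by omega)]

theorem red_V (w : ℕ) : red p (∑ a ∈ Icc 1 (p - 1), ∑ b ∈ Icc 1 (p - 1),
    (⟨(2 * a / p : ℕ), (2 * b / p : ℕ)⟩ : GaussianInt) * (⟨(a : ℤ), (b : ℤ)⟩ : GaussianInt) ^ w) =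
      (1 + omega ^ (w + 1)) * (∑ x : (ZMod p)ˣ, car (x : ZMod p) * emb p x ^ w) *
        U (emb p) omega w := by
  have h1 := wsum (emb p) omega car w
  have h2 := wsum' (F := Fq p) (emb p) omega om_sq car w
  have h3 := sum_sum fun x y => car x * (emb p x + emb p y * omega) ^ w +
    omega * (car y * (emb p x + emb p y * omega) ^ w)
  simp only [sum_add_distrib (s := univ), h1] at h3
  simp only [← mul_sum univ, h2] at h3
  rw [add_mul, add_mul, one_mul, pow_succ', mul_assoc omega, mul_assoc omega, ← h3]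
  simp only [map_sum, map_mul, map_pow, red_mk, map_natCast, Int.cast_natCast]
  refine sum_congr rfl fun a ha => sum_congr rfl fun b hb => ?_
  rw [car_cast ha, car_cast hb]
  ring

theorem cast_zero (n : ℕ) : (n : Fq p) = 0 ↔ p ∣ n := by
  rw [← map_natCast (emb p), map_eq_zero, ZMod.natCast_eq_zero_iff]

theorem cast_ne {n : ℕ} (h0 : 0 < n) (hn : n < p) : (n : Fq p) ≠ 0 := fun h =>
  absurd (Nat.le_of_dvd h0 ((cast_zero n).1 h)) (by omega)

theorem two_pow_ne (h7 : 7 ≤ p) {m r : ℕ} (hm : m + 2 = r * (p - 1)) : (1 : Fq p) - 2 ^ m ≠ 0 := by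
  intro h
  have h2 : (2 : Fq p) ^ (p - 1) = 1 := by
    have h3 : ((2 : ℕ) : ZMod p) ≠ 0 := fun h =>
      absurd (Nat.le_of_dvd two_pos ((ZMod.natCast_eq_zero_iff 2 p).1 h)) (by omega)
    have h4 := congrArg (emb p) (ZMod.pow_card_sub_one_eq_one h3)
    rwa [map_pow, map_natCast, map_one, Nat.cast_ofNat] at h4
  have h5 : (2 : Fq p) ^ m * 2 ^ 2 = 1 := by rw [← pow_add, hm, mul_comm, pow_mul, h2, one_pow]
  refine cast_ne (p := p) (n := 3) (by omega) (by omega) ?_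
  push_cast
  linear_combination h5 + 4 * h

theorem K_iff (h3 : p % 4 = 3) (h7 : 7 ≤ p) {w r : ℕ} (hw : w + 3 = r * (p - 1)) :
    ∑ x : (ZMod p)ˣ, car (x : ZMod p) * emb p x ^ w = 0 ↔ (p : ℤ) ∣ (bernoulli (p - 3)).num := by
  obtain ⟨r, rfl⟩ : ∃ s, r = s + 1 := ⟨r - 1, by rcases r with _ | r <;> omega⟩
  have hw' : w = (p - 1) * r + (p - 3 - 1) := by
    rw [add_mul, mul_comm r] at hw
    omega
  have h1 : ∑ x : (ZMod p)ˣ, car (x : ZMod p) * emb p x ^ w = ((∑ a ∈ Icc 1 (p - 1),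
      ((2 * a / p : ℕ) : ℤ) * (a : ℤ) ^ (p - 3 - 1) : ℤ) : Fq p) := by
    have h0 : ∀ x : (ZMod p)ˣ, emb p x ^ (p - 1) = 1 := fun x => by
      rw [← map_pow, ZMod.pow_card_sub_one_eq_one x.ne_zero, map_one]
    simp only [hw', pow_add, pow_mul, h0, one_pow, one_mul]
    rw [← sum_Icc_units fun x => car x * emb p x ^ (p - 3 - 1), Int.cast_sum]
    refine sum_congr rfl fun a ha => ?_
    rw [car_cast ha, map_natCast, Int.cast_mul, Int.cast_pow, Int.cast_natCast, Int.cast_natCast]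
  have h2 : (p : ℤ) ∣ ∑ a ∈ Icc 1 (p - 1), (a : ℤ) ^ (p - 3) := by
    have h4 := sum_e_pow (RingHom.id (ZMod p)) (p - 3)
    rw [if_neg fun h => absurd (Nat.le_of_dvd (by omega) h) (by omega)] at h4
    rw [← ZMod.intCast_zmod_eq_zero_iff_dvd]
    push_cast
    rw [sum_Icc_units fun x => x ^ (p - 3)]
    exact h4
  obtain ⟨s, hs⟩ := h2
  obtain ⟨c, hc⟩ := S_vor (p := p) (by omega) (p - 3)
  rw [← dvd_iff_ber (by omega) (by omega) hs, h1]
  rw [hs] at hc
  generalize ∑ a ∈ Icc 1 (p - 1), ((2 * a / p : ℕ) : ℤ) * (a : ℤ) ^ (p - 3 - 1) = W at hc ⊢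
  have h5 : (1 - 2 ^ (p - 3)) * s + (p - 3 : ℕ) * 2 ^ (p - 3 - 1) * W = p * c :=
    mul_left_cancel₀ (a := (p : ℤ)) (by omega) (by linear_combination hc)
  have h6 := congrArg (fun t : ℤ => (t : Fq p)) h5
  simp only [Int.cast_add, Int.cast_mul, Int.cast_sub, Int.cast_pow, Int.cast_one,
    Int.cast_ofNat, Int.cast_natCast, (cast_zero p).2 dvd_rfl, zero_mul] at h6
  have h8 : (s : Fq p) = 0 ↔ (p : ℤ) ∣ s := by
    rw [← map_intCast (emb p), map_eq_zero, ZMod.intCast_zmod_eq_zero_iff_dvd]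
  have n1 := two_pow_ne (m := p - 3) (r := 1) h7 (by omega)
  have n2 := cast_ne (p := p) (n := 2) (by omega) (by omega)
  have n3 := cast_ne (p := p) (n := p - 3) (by omega) (by omega)
  rw [Nat.cast_ofNat] at n2
  rw [← h8]
  constructor
  · intro h
    rw [h, mul_zero, add_zero] at h6
    exact (mul_eq_zero.1 h6).resolve_left n1
  · intro h
    rw [h, mul_zero, zero_add] at h6
    exact (mul_eq_zero.1 h6).resolve_left (mul_ne_zero n3 (pow_ne_zero _ n2))

theorem U_iff (h3 : p % 4 = 3) (h7 : 7 ≤ p) {w r : ℕ} (hw : w + 3 = r * (p - 1)) (hr : Odd r) :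
    U (emb p) omega w = 0 ↔ p = 7 ∧ r % 8 = 5 := by
  have h := eight_U (F := Fq p) (emb p) omega om_sq h3 hw
  have ho := Nat.odd_iff.1 hr
  have par : ∀ s, s % 2 = 1 → ¬ p + 1 ∣ s := fun s hs h => by
    have := (show 2 ∣ p + 1 by omega).trans h
    omega
  rw [H_mul h3 (by omega), H_mul h3 (by omega), H_mul h3 (by omega), H_mul h3 (by omega),
    if_neg (par r ho), if_neg (par (r + 2) (by omega))] at h
  simp only [pow_succ, hr.neg_one_pow] at h
  have n2 := cast_ne (p := p) (n := 2) (by omega) (by omega)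
  have n5 := cast_ne (p := p) (n := 5) (by omega) (by omega)
  have n7 := cast_zero (p := p) 7
  rw [Nat.cast_ofNat] at n2 n5 n7
  have n8 : (8 : Fq p) ≠ 0 := by
    rw [show (8 : Fq p) = 2 ^ 3 by norm_num]
    exact pow_ne_zero _ n2
  constructor
  · intro h0
    rw [h0] at h
    split_ifs at h with a b b
    · have := Nat.le_of_dvd two_pos ((Nat.dvd_add_right a).1 (show p + 1 ∣ r + 1 + 2 from b))
      omega
    · exact absurd (by linear_combination -h) n5
    · have h9 := Nat.le_of_dvd (by omega) (n7.1 (by linear_combination -h))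
      obtain rfl : p = 7 := by omega
      omega
    · exact absurd (by linear_combination -h) n8
  · rintro ⟨rfl, h5⟩
    rw [if_neg (by omega), if_pos (by omega)] at h
    refine (mul_eq_zero.1 ?_).resolve_left n8
    linear_combination -h - n7.2 dvd_rfl

theorem even_case (h3 : p % 4 = 3) (h7 : 7 ≤ p) {r : ℕ} (h1 : 1 ≤ r) (hr : Even r) :
    ¬ (p : GaussianInt) ∣ G (r * (p - 1)) p := by
  rw [← red_eq_zero, red_G, H_mul h3 h1, hr.neg_one_pow]
  have n2 := cast_ne (p := p) (n := 2) (by omega) (by omega)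
  rw [Nat.cast_ofNat] at n2
  split_ifs
  · simp
  · intro h
    exact n2 (by linear_combination h)

theorem odd_case (h3 : p % 4 = 3) (h7 : 7 ≤ p) {r : ℕ} (hr : Odd r) :
    (p : GaussianInt) ^ 3 ∣ G (r * (p - 1)) p ∧ ((p : GaussianInt) ^ 4 ∣ G (r * (p - 1)) p ↔
      p ∣ r * (r + 1) * (r + 2) ∨ (p : ℤ) ∣ (bernoulli (p - 3)).num ∨ p = 7 ∧ r % 8 = 5) := by
  obtain ⟨t, ht⟩ : ∃ t, 4 * t + 6 = r * (p - 1) := by
    obtain ⟨a, rfl⟩ := hr
    obtain ⟨b, hb⟩ : ∃ b, p - 1 = 4 * b + 6 := ⟨(p - 7) / 4, by omega⟩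
    exact ⟨2 * a * b + 3 * a + b, by rw [hb]; ring⟩
  have nd : ∀ k d, k + d = 4 * t + 6 → 0 < d → d < 6 → (p : GaussianInt) ∣ G k p :=
    fun k d e h0 hd => by
      rw [← red_eq_zero, red_G]
      refine H_zero _ _ fun h => ?_
      have h2 : p - 1 ∣ k + d := by rw [e, ht]; exact Dvd.intro_left r rfl
      have := Nat.le_of_dvd h0 ((Nat.dvd_add_right h).1 h2)
      omega
  obtain ⟨Y, hY⟩ := nd (4 * t + 4) 2 rfl (by omega) (by omega)
  obtain ⟨c, hc⟩ := G_main (nd (4 * t + 3) 3 rfl (by omega) (by omega)) hY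
  have hp0 : (p : GaussianInt) ≠ 0 := Nat.cast_ne_zero.2 (by omega)
  have hcop : IsCoprime ((p : GaussianInt) ^ 3) 4 := by
    have h2 : Nat.Coprime p 2 := (Nat.coprime_primes Fact.out Nat.prime_two).2 (by omega)
    exact_mod_cast (h2.pow 3 2).cast (R := GaussianInt)
  obtain ⟨Z, hZ⟩ : (p : GaussianInt) ^ 3 ∣ G (4 * t + 6) p := hcop.dvd_of_dvd_mul_left ⟨_, hc⟩
  rw [← ht]
  refine ⟨⟨Z, hZ⟩, ?_⟩
  have e1 : 4 * Z = I * ((4 * t + 6) * (4 * t + 5)) * Y + p * c :=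
    mul_left_cancel₀ (pow_ne_zero 3 hp0) (by rw [← hc, hZ]; ring)
  obtain ⟨d, hd⟩ := G_vor (p := p) (by omega) (4 * t + 4)
  have hV := red_V (p := p) (4 * t + 3)
  rw [hY, show 4 * t + 4 - 1 = 4 * t + 3 from rfl] at hd
  generalize ∑ a ∈ Icc 1 (p - 1), ∑ b ∈ Icc 1 (p - 1),
    (⟨(2 * a / p : ℕ), (2 * b / p : ℕ)⟩ : GaussianInt) *
      (⟨(a : ℤ), (b : ℤ)⟩ : GaussianInt) ^ (4 * t + 3) = V at hd hV
  have e2 : (1 - 2 ^ (4 * t + 4)) * Y + (4 * t + 4) * 2 ^ (4 * t + 3) * V = p * d :=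
    mul_left_cancel₀ hp0 (by push_cast at hd; linear_combination hd)
  have hI : red p I = omega := by rw [I, red_mk]; simp
  have hom : (omega : Fq p) ^ (4 * t + 3 + 1) = 1 := by
    rw [← hI, ← map_pow, show 4 * t + 3 + 1 = 4 * (t + 1) by ring, I_pow, map_one]
  have f1 := congrArg (red p) e1
  have f2 := congrArg (red p) e2
  have hp : (p : Fq p) = 0 := (cast_zero p).2 dvd_rfl
  simp only [map_add, map_mul, map_sub, map_pow, map_one, map_ofNat, map_natCast, hp, zero_mul,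
    add_zero, hI, hV, hom] at f1 f2
  have hn : (4 * t + 6 : Fq p) = -r := by
    have h2 := congrArg (fun n : ℕ => (n : Fq p)) ht
    simp only [Nat.cast_add, Nat.cast_mul, Nat.cast_ofNat, Nat.cast_sub (show 1 ≤ p by omega), hp,
      Nat.cast_one] at h2
    linear_combination h2
  have n1 := two_pow_ne (m := 4 * t + 4) (r := r) h7 ht
  have n2 := cast_ne (p := p) (n := 2) (by omega) (by omega)
  rw [Nat.cast_ofNat] at n2
  have n0 : (omega : Fq p) ≠ 0 := fun h => by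
    have h2 := om_sq (p := p)
    rw [h, mul_zero] at h2
    exact one_ne_zero (neg_eq_zero.1 h2.symm)
  rw [hZ, pow_succ _ 3, mul_dvd_mul_iff_left (pow_ne_zero 3 hp0), ← red_eq_zero,
    ← K_iff h3 h7 (w := 4 * t + 3) ht, ← U_iff h3 h7 (w := 4 * t + 3) ht hr, ← cast_zero,
    ← mul_eq_zero, ← mul_eq_zero]
  generalize ∑ x : (ZMod p)ˣ, car (x : ZMod p) * emb p x ^ (4 * t + 3) = K at f2 ⊢
  have key : (1 - 2 ^ (4 * t + 4)) * (2 * red p Z) = omega * 2 ^ (4 * t + 3) *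
      (((r * (r + 1) * (r + 2) : ℕ) : Fq p) * (K * U (emb p) omega (4 * t + 3))) := by
    refine mul_left_cancel₀ n2 ?_
    have hr' : (r : Fq p) = -(4 * t + 6) := by rw [hn, neg_neg]
    push_cast
    rw [hr']
    linear_combination (1 - 2 ^ (4 * t + 4)) * f1 + omega * ((4 * t + 6) * (4 * t + 5)) * f2
  constructor
  · intro h
    rw [h, mul_zero, mul_zero] at key
    exact (mul_eq_zero.1 key.symm).resolve_left (mul_ne_zero n0 (pow_ne_zero _ n2))
  · intro h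
    rw [h, mul_zero] at key
    exact (mul_eq_zero.1 ((mul_eq_zero.1 key).resolve_left n1)).resolve_left n2

end Pool.Agent.Lib.MP_887aa5_nt
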