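import Mathlib

/-!
Power sums over the grid `x + y j`, `x, y` units of `ZMod p`, in the field with `p ^ 2` elements.
-/

set_option autoImplicit false

namespace Pool.Agent.Lib.MP_887aa5_nt

open Finset

theorem sum_split {K M : Type} [Field K] [Fintype K] [DecidableEq K] [AddCommMonoid M]
    (f : K → M) : ∑ x, f x = f 0 + ∑ x : Kˣ, f x := by
  rw [Fintype.sum_eq_add_sum_subtype_ne f 0]
  congr 1
  exact (Fintype.sum_equiv unitsEquivNeZero (fun x : Kˣ => f x) (fun x => f x) fun _ => rfl).symm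

variable {p : ℕ} [Fact p.Prime]

theorem sum_Icc_units {M : Type} [AddCommMonoid M] (f : ZMod p → M) :
    ∑ a ∈ Icc 1 (p - 1), f (a : ZMod p) = ∑ x : (ZMod p)ˣ, f x := by
  have hp : 0 < p := (Fact.out : p.Prime).pos
  symm
  refine Finset.sum_bij (fun x _ => (x : ZMod p).val) ?_ ?_ ?_ ?_
  · intro x _
    have h1 := ZMod.val_lt (x : ZMod p)
    have h2 : (x : ZMod p).val ≠ 0 := by simp
    exact mem_Icc.2 ⟨by omega, by omega⟩
  · intro x _ y _ h
    exact Units.ext (ZMod.val_injective p h)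
  · intro a ha
    have ha' := mem_Icc.1 ha
    have h0 : (a : ZMod p) ≠ 0 := fun h =>
      absurd (Nat.le_of_dvd (by omega) ((ZMod.natCast_eq_zero_iff a p).1 h)) (by omega)
    exact ⟨Units.mk0 _ h0, mem_univ _, ZMod.val_cast_of_lt (by omega)⟩
  · intro x _
    simp

section abstract

variable {F : Type} [Field F] (e : ZMod p →+* F) (j : F)

/-- The line sum. -/
def U (m : ℕ) : F := ∑ y : (ZMod p)ˣ, (1 + e y * j) ^ m

/-- The grid sum. -/
def H (m : ℕ) : F := ∑ x : (ZMod p)ˣ, ∑ y : (ZMod p)ˣ, (e x + e y * j) ^ m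

theorem wsum (h : ZMod p → F) (m : ℕ) :
    ∑ x : (ZMod p)ˣ, ∑ y : (ZMod p)ˣ, h x * (e x + e y * j) ^ m =
      (∑ x : (ZMod p)ˣ, h x * e x ^ m) * U e j m := by
  rw [sum_mul]
  refine sum_congr rfl fun x _ => ?_
  rw [U, mul_sum]
  refine (Fintype.sum_equiv (Equiv.mulLeft x) _ _ fun y => ?_).symm
  simp only [Equiv.coe_mulLeft, Units.val_mul, map_mul]
  rw [mul_assoc, ← mul_pow]
  congr 2
  ring

theorem wsum' (hj : j * j = -1) (h : ZMod p → F) (m : ℕ) :
    ∑ x : (ZMod p)ˣ, ∑ y : (ZMod p)ˣ, h y * (e x + e y * j) ^ m =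
      j ^ m * (∑ x : (ZMod p)ˣ, h x * e x ^ m) * U e j m := by
  rw [sum_comm, mul_sum, sum_mul]
  refine sum_congr rfl fun y _ => ?_
  rw [U, mul_sum]
  refine (Fintype.sum_equiv (Equiv.mulLeft (-y)) _ _ fun t => ?_).symm
  simp only [Equiv.coe_mulLeft, Units.val_mul, map_mul, Units.val_neg, map_neg]
  rw [mul_left_comm, mul_assoc, ← mul_pow, ← mul_pow]
  congr 2
  linear_combination (e y * e t) * hj

theorem sum_e_pow (m : ℕ) :
    ∑ x : (ZMod p)ˣ, e x ^ m = if p - 1 ∣ m then -1 else 0 := by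
  have h := congrArg e (FiniteField.sum_pow_units (ZMod p) m)
  rw [ZMod.card, map_sum] at h
  simp only [map_pow] at h
  rw [h]
  split_ifs <;> simp

theorem H_zero {m : ℕ} (hm : ¬ p - 1 ∣ m) : H e j m = 0 := by
  have h := wsum e j (fun _ => 1) m
  simp only [one_mul] at h
  rw [H, h, sum_e_pow, if_neg hm, zero_mul]

omit [Fact p.Prime] in
theorem j_pow (hj : j * j = -1) (h3 : p % 4 = 3) (s : ℕ) : j ^ (s * (p - 1)) = (-1) ^ s := by
  obtain ⟨k, hk⟩ : ∃ k, p - 1 = 2 * (2 * k + 1) := ⟨p / 4, by omega⟩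
  rw [hk, mul_comm s, pow_mul, pow_mul, pow_two, hj, Odd.neg_one_pow ⟨k, rfl⟩]

theorem eight_U (hj : j * j = -1) (h3 : p % 4 = 3) {w r : ℕ} (hw : w + 3 = r * (p - 1)) :
    -8 * U e j w = H e j (r * (p - 1)) + 3 * H e j ((r + 1) * (p - 1)) +
      3 * H e j ((r + 2) * (p - 1)) + H e j ((r + 3) * (p - 1)) := by
  have : CharP F p := (e.charP_iff_charP p).1 inferInstance
  have h := wsum e j (fun x => 8 * e x ^ 3) w
  have h1 : ∑ x : (ZMod p)ˣ, 8 * e x ^ 3 * e x ^ w = -8 := by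
    have h2 := sum_e_pow e (w + 3)
    rw [if_pos (hw ▸ Dvd.intro_left r rfl)] at h2
    rw [show (-8 : F) = 8 * -1 by ring, ← h2, mul_sum]
    exact sum_congr rfl fun x _ => by ring
  rw [h1] at h
  rw [← h]
  simp only [H, mul_sum, ← sum_add_distrib]
  refine sum_congr rfl fun x _ => sum_congr rfl fun y _ => ?_
  have hp : p = (p - 1) + 1 := by omega
  have hjp : j ^ p = -j := by
    have h4 := j_pow j hj h3 1
    rw [one_mul] at h4
    rw [hp, pow_succ, h4]
    ring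
  have hz : (e x + e y * j) ^ (p - 1) * (e x + e y * j) = e x - e y * j := by
    rw [← pow_succ, ← hp, add_pow_char, mul_pow, ← map_pow, ← map_pow, ZMod.pow_card,
      ZMod.pow_card, hjp]
    ring
  have hq : ∀ t : ℕ, (e x + e y * j) ^ ((r + t) * (p - 1)) =
      (e x + e y * j) ^ (w + 3) * ((e x + e y * j) ^ (p - 1)) ^ t := fun t => by
    rw [add_mul, pow_add, hw, mul_comm t, pow_mul _ (p - 1) t]
  rw [hq, hq, hq, ← hw]
  generalize (e x + e y * j) ^ (p - 1) = q at hz ⊢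
  have h5 : 2 * e x = (e x + e y * j) * (1 + q) := by linear_combination -hz
  have h6 : 8 * e x ^ 3 = ((e x + e y * j) * (1 + q)) ^ 3 := by rw [← h5]; ring
  rw [h6]
  ring

end abstract

/-- The ring with `p ^ 2` elements obtained by adjoining a square root of `-1`. -/
abbrev Fq (p : ℕ) : Type := QuadraticAlgebra (ZMod p) (-1) 0

theorem nosq (h3 : p % 4 = 3) : Fact (∀ r : ZMod p, r ^ 2 ≠ -1 + 0 * r) :=
  ⟨fun r hr => ZMod.mod_four_ne_three_of_sq_eq_neg_one (y := r) (by simpa using hr) h3⟩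

theorem om_sq : (QuadraticAlgebra.omega : Fq p) * QuadraticAlgebra.omega = -1 := by
  ext <;> simp [QuadraticAlgebra.re_one, QuadraticAlgebra.im_one]

theorem H_mul [Fact (∀ r : ZMod p, r ^ 2 ≠ -1 + 0 * r)] (h3 : p % 4 = 3) {s : ℕ} (hs : 1 ≤ s) :
    H (algebraMap (ZMod p) (Fq p)) QuadraticAlgebra.omega (s * (p - 1)) =
      1 + (-1) ^ s - if p + 1 ∣ s then 1 else 0 := by
  classical
  let _ : Fintype (Fq p) := Fintype.ofEquiv _ (QuadraticAlgebra.equivProd (-1 : ZMod p) 0).symm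
  have hc : Fintype.card (Fq p) - 1 = (p + 1) * (p - 1) := by
    rw [Fintype.ofEquiv_card, Fintype.card_prod, ZMod.card, ← Nat.mul_self_sub_mul_self_eq]
  have hM : s * (p - 1) ≠ 0 := Nat.mul_ne_zero (by omega) (by omega)
  have h1 := FiniteField.sum_pow_units (Fq p) (s * (p - 1))
  rw [hc] at h1
  simp only [Nat.mul_dvd_mul_iff_right (show 0 < p - 1 by omega)] at h1
  have h2 := sum_split fun z : Fq p => z ^ (s * (p - 1))
  rw [h1, zero_pow hM, zero_add] at h2
  have h3' : ∑ z : Fq p, z ^ (s * (p - 1)) = ∑ x : ZMod p, ∑ y : ZMod p,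
      (algebraMap (ZMod p) (Fq p) x + algebraMap (ZMod p) (Fq p) y * QuadraticAlgebra.omega) ^
        (s * (p - 1)) := by
    rw [← Fintype.sum_prod_type']
    refine Fintype.sum_equiv (QuadraticAlgebra.equivProd (-1 : ZMod p) 0) _ _ fun z => ?_
    congr 1
    ext <;> simp [QuadraticAlgebra.equivProd]
  have h4 := sum_e_pow (algebraMap (ZMod p) (Fq p)) (s * (p - 1))
  rw [if_pos (Dvd.intro_left s rfl)] at h4
  rw [h3', sum_split] at h2
  simp only [sum_split (K := ZMod p), map_zero, zero_mul, add_zero, zero_add, zero_pow hM,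
    sum_add_distrib, mul_pow, ← sum_mul, h4, j_pow (F := Fq p) _ om_sq h3] at h2
  rw [H]
  split_ifs at h2 ⊢
  · linear_combination h2
  · linear_combination h2

end Pool.Agent.Lib.MP_887aa5_nt
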