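import Pool.Agent.Lib.MP_887aa5_nt.Fld
import Pool.Agent.Lib.MP_887aa5_nt.Ber

/-!
Gaussian power sums: the rotation `z ↦ p + i z` and the doubling `z ↦ 2 z`.
-/

set_option autoImplicit false

namespace Pool.Agent.Lib.MP_887aa5_nt

open Finset

/-- The Gaussian power sum `G_n(p) = ∑_{a,b ∈ {1,…,p-1}} (a + b i)^n`. -/
def G (n p : ℕ) : GaussianInt :=
  ∑ a ∈ Finset.Icc 1 (p - 1), ∑ b ∈ Finset.Icc 1 (p - 1), (⟨(a : ℤ), (b : ℤ)⟩ : GaussianInt) ^ n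

/-- The valuation `v_p(x + y i) = min (v_p x) (v_p y)`, with `v_p 0 = ∞`. -/
noncomputable def v (p : ℕ) (z : GaussianInt) : ℕ∞ :=
  min (emultiplicity (p : ℤ) z.re) (emultiplicity (p : ℤ) z.im)

theorem le_v (p k : ℕ) (z : GaussianInt) : (k : ℕ∞) ≤ v p z ↔ (p : GaussianInt) ^ k ∣ z := by
  rw [v, le_min_iff, ← pow_dvd_iff_le_emultiplicity, ← pow_dvd_iff_le_emultiplicity,
    ← Zsqrtd.intCast_dvd]
  push_cast
  rfl

/-- The imaginary unit. -/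
def I : GaussianInt := ⟨0, 1⟩

theorem I_sq : I * I = -1 := by decide

theorem I_pow (t : ℕ) : I ^ (4 * t) = 1 := by
  rw [pow_mul, show I ^ 4 = 1 by decide, one_pow]

theorem sum_refl {M : Type} [AddCommMonoid M] (p : ℕ) (g : ℤ → M) :
    ∑ b ∈ Icc 1 (p - 1), g ((p : ℤ) - (b : ℕ)) = ∑ b ∈ Icc 1 (p - 1), g (b : ℕ) := by
  refine sum_bij' (fun a _ => p - a) (fun a _ => p - a) ?_ ?_ ?_ ?_ ?_
  all_goals
    intro a ha
    simp only [mem_Icc] at ha ⊢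
  · omega
  · omega
  · omega
  · omega
  · rw [Nat.cast_sub (by omega)]

theorem G_rot (m p : ℕ) : G m p =
    ∑ k ∈ range (m + 1), (p : GaussianInt) ^ k * (I ^ (m - k) * m.choose k * G (m - k) p) := by
  have h1 : G m p = ∑ a ∈ Icc 1 (p - 1), ∑ b ∈ Icc 1 (p - 1),
      ((p : GaussianInt) + I * (⟨(a : ℤ), (b : ℤ)⟩ : GaussianInt)) ^ m := by
    rw [G, sum_comm]
    refine sum_congr rfl fun a _ => ?_
    rw [← sum_refl p fun b => (⟨b, (a : ℤ)⟩ : GaussianInt) ^ m]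
    refine sum_congr rfl fun b _ => ?_
    congr 1
    ext <;> simp [I, sub_eq_add_neg]
  rw [h1]
  simp only [add_pow, mul_pow, G, mul_sum]
  rw [sum_comm (s := range (m + 1))]
  refine sum_congr rfl fun a _ => ?_
  rw [sum_comm (s := range (m + 1))]
  exact sum_congr rfl fun b _ => sum_congr rfl fun k _ => by ring

theorem G_rot_dvd (m p d : ℕ) (hd : d ≤ m + 1) : (p : GaussianInt) ^ d ∣ G m p -
    ∑ k ∈ range d, (p : GaussianInt) ^ k * (I ^ (m - k) * m.choose k * G (m - k) p) := by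
  rw [G_rot m p, ← sum_range_add_sum_Ico _ hd, add_sub_cancel_left]
  exact dvd_sum fun k hk => (pow_dvd_pow _ (mem_Ico.1 hk).1).mul_right _

theorem G_main {p t : ℕ} {Y : GaussianInt} (h0 : (p : GaussianInt) ∣ G (4 * t + 3) p)
    (h1 : G (4 * t + 4) p = p * Y) : ∃ c : GaussianInt, 4 * G (4 * t + 6) p =
      p ^ 3 * (I * ((4 * t + 6) * (4 * t + 5)) * Y + p * c) := by
  obtain ⟨a, ha⟩ := G_rot_dvd (4 * t + 6) p 4 (by omega)
  obtain ⟨b, hb⟩ := G_rot_dvd (4 * t + 5) p 3 (by omega)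
  obtain ⟨y, hy⟩ := h0
  have hC : (((4 * t + 6).choose 2 : ℕ) : GaussianInt) * 2 = (4 * t + 6) * (4 * t + 5) := by
    have h := Nat.choose_two_right (4 * t + 6)
    have h2 : (4 * t + 6).choose 2 * 2 = (4 * t + 6) * (4 * t + 5) := by
      rw [h, show (4 * t + 6) * (4 * t + 6 - 1) = (2 * t + 3) * (4 * t + 5) * 2 by
        rw [show 4 * t + 6 - 1 = 4 * t + 5 by omega]; ring, Nat.mul_div_cancel _ two_pos]
      ring
    exact_mod_cast h2
  have i3 : I ^ (4 * t + 3) = -I := by rw [pow_add, I_pow]; decide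
  have i4 : I ^ (4 * t + 4) = 1 := by rw [pow_add, I_pow]; decide
  have i5 : I ^ (4 * t + 5) = I := by rw [pow_add, I_pow]; decide
  have i6 : I ^ (4 * t + 6) = -1 := by rw [pow_add, I_pow]; decide
  simp only [sum_range_succ, range_zero, sum_empty, Nat.sub_zero, Nat.choose_zero_right,
    Nat.choose_one_right, show 4 * t + 6 - 1 = 4 * t + 5 from rfl,
    show 4 * t + 6 - 2 = 4 * t + 4 from rfl, show 4 * t + 6 - 3 = 4 * t + 3 from rfl,
    show 4 * t + 5 - 1 = 4 * t + 4 from rfl, show 4 * t + 5 - 2 = 4 * t + 3 from rfl,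
    i3, i4, i5, i6, hy, h1] at ha hb
  generalize (((4 * t + 6).choose 2 : ℕ) : GaussianInt) = C2 at ha hC
  generalize (((4 * t + 6).choose 3 : ℕ) : GaussianInt) = C3 at ha
  generalize (((4 * t + 5).choose 2 : ℕ) : GaussianInt) = D2 at hb
  push_cast at ha hb
  refine ⟨2 * a - 2 * I * C3 * y + (I - 1) * (4 * t + 6) * (b - I * D2 * y), ?_⟩
  linear_combination 2 * ha + p * (4 * t + 6) * (I - 1) * hb + p ^ 3 * Y * hC +
    p * (4 * t + 6) * G (4 * t + 5) p * I_sq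

theorem sum_dbl {M : Type} [AddCommMonoid M] {p : ℕ} (hp : p % 2 = 1) (g : ℕ → M) :
    ∑ a ∈ Icc 1 (p - 1), g (2 * a % p) = ∑ a ∈ Icc 1 (p - 1), g a := by
  have key : ∀ a, a < p → 2 * a % p = if 2 * a < p then 2 * a else 2 * a - p := fun a ha => by
    split_ifs with h
    · exact Nat.mod_eq_of_lt h
    · rw [Nat.mod_eq_sub_mod (by omega), Nat.mod_eq_of_lt (by omega)]
  refine sum_bij' (fun a _ => 2 * a % p) (fun a _ => if a % 2 = 0 then a / 2 else (a + p) / 2)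
    ?_ ?_ ?_ ?_ fun _ _ => rfl
  all_goals
    intro a ha
    simp only [mem_Icc] at ha ⊢
  · rw [key a (by omega)]
    split_ifs <;> omega
  · split_ifs <;> omega
  · rw [key a (by omega)]
    split_ifs <;> omega
  · rw [key _ (by split_ifs <;> omega)]
    split_ifs <;> omega

theorem vor {R : Type} [CommRing R] (p z ε : R) (m : ℕ) :
    p ^ 2 ∣ (2 * z - p * ε) ^ m - 2 ^ m * z ^ m + p * (m * 2 ^ (m - 1) * (ε * z ^ (m - 1))) := by
  obtain ⟨c, hc⟩ := sq_dvd_add_pow_sub_sub (-(p * ε)) (2 * z) m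
  refine ⟨ε ^ 2 * c, ?_⟩
  rw [← sub_eq_add_neg, mul_pow 2, mul_pow 2] at hc
  linear_combination hc

theorem mod_eq (p a : ℕ) : ((2 * a % p : ℕ) : ℤ) = 2 * a - p * (2 * a / p : ℕ) := by
  have h : ((p * (2 * a / p) + 2 * a % p : ℕ) : ℤ) = (2 * a : ℕ) := by rw [Nat.div_add_mod]
  rw [Nat.cast_add, Nat.cast_mul, Nat.cast_mul] at h
  linear_combination h

theorem S_vor {p : ℕ} (hp : p % 2 = 1) (m : ℕ) :
    (p : ℤ) ^ 2 ∣ (1 - 2 ^ m) * ∑ a ∈ Icc 1 (p - 1), (a : ℤ) ^ m + p * (m * 2 ^ (m - 1) *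
      ∑ a ∈ Icc 1 (p - 1), ((2 * a / p : ℕ) : ℤ) * (a : ℤ) ^ (m - 1)) := by
  rw [sub_mul, one_mul]
  nth_rw 1 [← sum_dbl hp fun a => (a : ℤ) ^ m]
  simp only [mul_sum, ← sum_sub_distrib, ← sum_add_distrib, mod_eq]
  exact dvd_sum fun a _ => vor _ _ _ _

theorem G_vor {p : ℕ} (hp : p % 2 = 1) (m : ℕ) :
    (p : GaussianInt) ^ 2 ∣ (1 - 2 ^ m) * G m p + p * (m * 2 ^ (m - 1) *
      ∑ a ∈ Icc 1 (p - 1), ∑ b ∈ Icc 1 (p - 1),
        (⟨(2 * a / p : ℕ), (2 * b / p : ℕ)⟩ : GaussianInt) *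
          (⟨(a : ℤ), (b : ℤ)⟩ : GaussianInt) ^ (m - 1)) := by
  have h1 : G m p = ∑ a ∈ Icc 1 (p - 1), ∑ b ∈ Icc 1 (p - 1),
      (2 * (⟨(a : ℤ), (b : ℤ)⟩ : GaussianInt) -
        p * (⟨(2 * a / p : ℕ), (2 * b / p : ℕ)⟩ : GaussianInt)) ^ m := by
    rw [G, ← sum_dbl hp fun a => ∑ b ∈ Icc 1 (p - 1), (⟨(a : ℤ), (b : ℤ)⟩ : GaussianInt) ^ m]
    refine sum_congr rfl fun a _ => ?_
    rw [← sum_dbl hp fun b => (⟨((2 * a % p : ℕ) : ℤ), (b : ℤ)⟩ : GaussianInt) ^ m]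
    refine sum_congr rfl fun b _ => ?_
    rw [mod_eq, mod_eq]
    congr 1
    generalize ((2 * a / p : ℕ) : ℤ) = x
    generalize ((2 * b / p : ℕ) : ℤ) = y
    ext <;> simp
  rw [sub_mul, one_mul]
  nth_rw 1 [h1]
  simp only [G, mul_sum, ← sum_sub_distrib, ← sum_add_distrib]
  exact dvd_sum fun a _ => dvd_sum fun b _ => vor _ _ _ _

end Pool.Agent.Lib.MP_887aa5_nt
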